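import Pool.Agent.Lib.MP_e6fef2_lc.Chain
import Pool.Agent.Lib.MP_c5d73d_lc.F.H81.Book

/-!
# Modules IDX1, IDX2: cardinal arithmetic
-/

universe u v

open Cardinal Filter

namespace Pool.Agent.Lib.MP_e6fef2_lc.H2

open Pool.Agent.Lib.MP_c5d73d_lc.F.H81 (bounded_of_lt mk_small_subsets mk_Iic_lt)

theorem mk_W : #W.{u} = ℵ₁ := by
  simp [W]

theorem idx_inacc (κ : Cardinal.{u}) (hκ : κ.IsInaccessible) : Idx κ κ.ord.ToType where
  card := by simp
  reg := hκ.isRegular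
  unc := hκ.aleph0_lt
  lim := fun c hc => hκ.isStrongLimit.two_power_lt hc
  seg := fun i => Cardinal.mk_Iio_toType_ord_lt i

theorem pow_lt {κ : Cardinal.{u}} (h0 : ℵ₀ < κ) (hl : ∀ c < κ, 2 ^ c < κ) {d : Cardinal.{u}}
    (hd : d < κ) {c : Cardinal.{u}} (hc : c < κ) : c ^ d < κ := by
  have h1 : c ^ d ≤ (2 ^ c) ^ d := power_le_power_right (cantor c).le
  rw [← power_mul] at h1
  exact h1.trans_lt (hl _ (mul_lt_of_lt h0.le hc hd))

theorem W_lt {κ : Cardinal.{u}} (h0 : ℵ₀ < κ) (hl : ∀ c < κ, 2 ^ c < κ) : #W.{u} < κ := by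
  rw [mk_W]
  refine lt_of_le_of_lt ?_ (hl _ h0)
  exact aleph_one_le_continuum

section

variable {κ : Cardinal.{u}} {I : Type u} [LinearOrder I] 

theorem idx_bdd (h : Idx κ I) (Z : Set I) (hZ : #Z < κ) : ∃ i, ∀ z ∈ Z, z < i := by
  obtain ⟨hc, hr, h0, hl, hs⟩ := h
  subst hc
  exact bounded_of_lt h0 hr hs Z hZ

theorem idx_small [WellFoundedLT I] (h : Idx κ I) (X : Type u) (hX : #X ≤ κ) : #{Z : Set X // #Z < κ} ≤ κ := by
  obtain ⟨hc, hr, h0, hl, hs⟩ := h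
  subst hc
  obtain ⟨j⟩ := hX
  refine le_trans ?_ (mk_small_subsets h0 hr hl hs)
  refine mk_le_of_injective (f := fun Z => ⟨j '' Z.1, mk_image_le.trans_lt Z.2⟩) ?_
  intro Z Z' hZ
  exact Subtype.ext (j.injective.image_injective (congrArg Subtype.val hZ))

theorem idx_fun [WellFoundedLT I] (h : Idx κ I) (X : Type u) (hX : #X ≤ κ) : #(W.{u} → W.{u} → X) ≤ κ := by
  have h0 := h.unc
  have hW := W_lt h0 h.lim
  have h1 : #((W.{u} × W.{u}) × X) ≤ κ := by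
    rw [mk_prod, mk_prod, lift_id, lift_id, lift_id]
    exact (mul_le_mul' (mul_lt_of_lt h0.le hW hW).le hX).trans (mul_eq_self h0.le).le
  refine le_trans ?_ (idx_small h _ h1)
  refine mk_le_of_injective (f := fun g => ⟨Set.range fun p : W.{u} × W.{u} => (p, g p.1 p.2),
    mk_range_le.trans_lt ?_⟩) ?_
  · rw [mk_prod, lift_id]
    exact mul_lt_of_lt h0.le hW hW
  · intro g g' hg
    have hg1 : (Set.range fun p : W.{u} × W.{u} => (p, g p.1 p.2)) =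
        Set.range fun p : W.{u} × W.{u} => (p, g' p.1 p.2) := congrArg Subtype.val hg
    funext x y
    have h2 : ((x, y), g x y) ∈ Set.range fun p : W.{u} × W.{u} => (p, g p.1 p.2) := ⟨(x, y), rfl⟩
    rw [hg1] at h2
    obtain ⟨p, hp⟩ := h2
    have hp1 : p = (x, y) := congrArg Prod.fst hp
    subst hp1
    exact (congrArg Prod.snd hp).symm

theorem idx_bk (h : Idx κ I) : ∃ bk : I → I × I, ∀ p i, ∃ j, i < j ∧ bk j = p := by
  obtain ⟨hc, hr, h0, hl, hs⟩ := h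
  subst hc
  have h1 : #((I × I) × I) = #I := by
    rw [mk_prod, mk_prod, lift_id, lift_id, mul_eq_self h0.le, mul_eq_self h0.le]
  obtain ⟨e⟩ := Cardinal.eq.1 h1
  refine ⟨fun j => (e.symm j).1, fun p i => ?_⟩
  by_contra hcon
  push Not at hcon
  have h2 : (Set.range fun k : I => e (p, k)) ⊆ Set.Iic i := by
    rintro _ ⟨k, rfl⟩
    by_contra hk
    exact hcon (e (p, k)) (not_le.1 hk) (by simp)
  have h3 := (mk_le_mk_of_subset h2).trans_lt (mk_Iic_lt h0 hs i)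
  rw [mk_range_eq _ (by
    intro x y hxy
    exact (Prod.ext_iff.1 (e.injective hxy)).2)] at h3
  exact lt_irrefl _ h3

end

theorem W_Iio (δ : W.{u}) : (Set.Iio δ).Countable := by
  rw [← le_aleph0_iff_set_countable]
  have h1 : #(Set.Iio δ) < ℵ₁ := Cardinal.mk_Iio_toType_ord_lt δ
  have h2 : (ℵ₁ : Cardinal.{u}) = Order.succ ℵ₀ := succ_aleph0.symm
  exact Order.lt_succ_iff.1 (h1.trans_eq h2)

theorem W_bdd (Z : Set W.{u}) (hZ : Z.Countable) : ∃ δ, ∀ z ∈ Z, z < δ := by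
  have hr : (#W.{u}).IsRegular := by
    rw [mk_W]
    exact isRegular_aleph_one
  refine bounded_of_lt (I := W.{u}) (by rw [mk_W]; exact aleph0_lt_aleph_one) hr ?_ Z ?_
  · intro i
    rw [mk_W]
    exact lt_of_le_of_lt (le_aleph0_iff_set_countable.2 (W_Iio i)) aleph0_lt_aleph_one
  · rw [mk_W]
    exact lt_of_le_of_lt (le_aleph0_iff_set_countable.2 hZ) aleph0_lt_aleph_one

/-! ### Small `σ`-algebras -/

section

variable {A : Type u} [CompleteBooleanAlgebra A] (X : Set A)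

/-- Shapes of the nodes of the terms. -/
abbrev Sh : Type u := X ⊕ PUnit.{u + 1} ⊕ PUnit.{u + 1} ⊕ PUnit.{u + 1}

/-- Arities. -/
def ar : Sh X → Type u
  | Sum.inl _ => PEmpty
  | Sum.inr (Sum.inl _) => PEmpty
  | Sum.inr (Sum.inr (Sum.inl _)) => PUnit
  | Sum.inr (Sum.inr (Sum.inr _)) => ULift ℕ

/-- Evaluation of the nodes. -/
noncomputable def evn : (Σ a : Sh X, ar X a → A) → A
  | ⟨Sum.inl x, _⟩ => x.1
  | ⟨Sum.inr (Sum.inl _), _⟩ => ⊤
  | ⟨Sum.inr (Sum.inr (Sum.inl _)), g⟩ => (g PUnit.unit)ᶜ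
  | ⟨Sum.inr (Sum.inr (Sum.inr _)), g⟩ => ⨆ n : ℕ, g ⟨n⟩

/-- The set of the values of the terms. -/
noncomputable def SA : Set A := Set.range (WType.elim A (evn X))

theorem SA_sigC : SigC (SA X) where
  top := ⟨WType.mk (Sum.inr (Sum.inl PUnit.unit)) PEmpty.elim, rfl⟩
  compl := by
    rintro _ ⟨t, rfl⟩
    exact ⟨WType.mk (Sum.inr (Sum.inr (Sum.inl PUnit.unit))) fun _ => t, rfl⟩
  sup := by
    intro x hx
    choose t ht using hx
    refine ⟨WType.mk (Sum.inr (Sum.inr (Sum.inr PUnit.unit))) fun n => t n.down, ?_⟩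
    change ⨆ n : ℕ, WType.elim A (evn X) (t n) = _
    exact congrArg _ (funext ht)

theorem sub_SA : X ⊆ SA X := fun x hx => ⟨WType.mk (Sum.inl ⟨x, hx⟩) PEmpty.elim, rfl⟩

theorem mk_SA : #(SA X) ≤ (max #X 2) ^ ℵ₀ := by
  refine mk_range_le.trans ?_
  set c : Cardinal.{u} := (max #X 2) ^ ℵ₀ with hc
  have h2 : (2 : Cardinal.{u}) ^ ℵ₀ ≤ c := power_le_power_right (le_max_right _ _)
  have h0 : ℵ₀ ≤ c := (cantor ℵ₀).le.trans h2
  have h1 : 1 ≤ c := one_le_aleph0.trans h0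
  have hX : #X ≤ c := (le_max_left _ _).trans (self_le_power _ one_le_aleph0)
  have hcc : c ^ ℵ₀ = c := by
    rw [hc, ← power_mul, aleph0_mul_aleph0]
  refine WType.cardinalMk_le_of_le' ?_
  simp only [lift_id]
  have hsum : (Cardinal.sum fun a : Sh X => c ^ #(ar X a)) ≤ Cardinal.sum fun _ : Sh X => c := by
    refine sum_le_sum _ _ fun a => ?_
    rcases a with a | a | a | a
    · simpa [ar] using h1
    · simpa [ar] using h1
    · simp [ar]
    · change c ^ #(ULift ℕ) ≤ c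
      simp [hcc]
  refine hsum.trans ?_
  rw [sum_const, lift_id, lift_id]
  refine (mul_le_mul' (c := c) (b := c) ?_ le_rfl).trans (mul_eq_self h0).le
  simp only [mk_sum, lift_id, mk_punit]
  refine add_le_of_le h0 hX (add_le_of_le h0 h1 (add_le_of_le h0 h1 h1))

end

/-- IDX1. -/
theorem idx1 :
    (∀ κ : Cardinal.{u}, κ.IsInaccessible → Idx κ κ.ord.ToType) ∧
    (∀ (κ : Cardinal.{u}) (I : Type u) [LinearOrder I] [WellFoundedLT I], Idx κ I →
      (∀ Z : Set I, #Z < κ → ∃ i, ∀ z ∈ Z, z < i) ∧ (∀ c < κ, c ^ ℵ₀ < κ) ∧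
      (∀ c < κ, c ^ #W.{u} < κ) ∧ #W.{u} < κ ∧
      (∀ X : Type u, #X ≤ κ → #{Z : Set X // #Z < κ} ≤ κ) ∧
      (∀ X : Type u, #X ≤ κ → #(W.{u} → W.{u} → X) ≤ κ) ∧
      (∃ bk : I → I × I, ∀ p i, ∃ j, i < j ∧ bk j = p)) :=
  ⟨idx_inacc, fun _ _ _ _ h => ⟨idx_bdd h, fun _ => pow_lt h.unc h.lim h.unc,
    fun _ => pow_lt h.unc h.lim (W_lt h.unc h.lim), W_lt h.unc h.lim, idx_small h, idx_fun h,
    idx_bk h⟩⟩

/-- IDX. -/
theorem idx : IdxStatement.{u} := by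
  refine ⟨idx1.1, idx1.2, W_Iio, W_bdd, ?_⟩
  intro κ A _ X h1 h0 hX
  exact ⟨SA X, SA_sigC X, sub_SA X, (mk_SA X).trans_lt
    (h1 _ (max_lt hX ((natCast_lt_aleph0 (n := 2)).trans h0)))⟩

end Pool.Agent.Lib.MP_e6fef2_lc.H2
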